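import Pool.Agent.helper90.IV.Spec

/-!
# Row LB of MP_26dbae_co: the linked subdivision is balanced
-/

set_option autoImplicit false

open scoped BigOperators

namespace Pool.Agent.helper50.IV

open Pool.Agent.helper23.TH Pool.Agent.KS Pool.Agent.IV

noncomputable section

open Classical

theorem LB_key {ρ ι : Type} [Fintype ρ] [Fintype ι] (y : ρ ⊕ ι) (x : Fin (Fintype.card ι))
    (h : Sum.map (Fintype.equivFin ρ) (Fintype.equivFin ι) y = Sum.inr x) :
    y = Sum.inr ((Fintype.equivFin ι).symm x) := by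
  rcases y with a | a
  · simp at h
  · simp only [Sum.map_inr, Sum.inr.injEq] at h
    rw [← h, Equiv.symm_apply_apply]

/-- the number of edges meeting a set, for a graph given by finite types -/
theorem LB_es {ρ ι ε : Type} [Fintype ρ] [Fintype ι] [Fintype ε] (ed : ε → (ρ ⊕ ι) × (ρ ⊕ ι))
    (hi : Function.Injective fun e => s((ed e).1, (ed e).2)) (hl : ∀ e, (ed e).1 ≠ (ed e).2)
    (S : Finset (Fin (Fintype.card ι))) :
    Rooted.es (mkR ed hi hl) S = (Finset.univ.filter fun k : ε =>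
      ∃ x : ι, Fintype.equivFin ι x ∈ S ∧ ((ed k).1 = Sum.inr x ∨ (ed k).2 = Sum.inr x)).card := by
  unfold Rooted.es
  refine Finset.card_bij (fun i _ => (Fintype.equivFin ε).symm i) ?_ ?_ ?_
  · intro i hi1
    simp only [Finset.mem_filter, Finset.mem_univ, true_and] at hi1 ⊢
    obtain ⟨x, hx, h⟩ := hi1
    refine ⟨(Fintype.equivFin ι).symm x, ?_, ?_⟩
    · rw [Equiv.apply_symm_apply]; exact hx
    · rcases h with h | h
      · left
        exact LB_key _ _ h
      · right
        exact LB_key _ _ h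
  · intro a _ b _ h
    exact (Fintype.equivFin ε).symm.injective h
  · intro k hk
    simp only [Finset.mem_filter, Finset.mem_univ, true_and] at hk
    obtain ⟨x, hx, h⟩ := hk
    refine ⟨Fintype.equivFin ε k, ?_, ?_⟩
    · simp only [Finset.mem_filter, Finset.mem_univ, true_and]
      refine ⟨Fintype.equivFin ι x, hx, ?_⟩
      rcases h with h | h
      · left
        change Sum.map (Fintype.equivFin ρ) (Fintype.equivFin ι)
          (ed ((Fintype.equivFin ε).symm (Fintype.equivFin ε k))).1 = _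
        rw [Equiv.symm_apply_apply, h]; rfl
      · right
        change Sum.map (Fintype.equivFin ρ) (Fintype.equivFin ι)
          (ed ((Fintype.equivFin ε).symm (Fintype.equivFin ε k))).2 = _
        rw [Equiv.symm_apply_apply, h]; rfl
    · exact Equiv.symm_apply_apply _ _

theorem LB_sum {α β : Type} [Fintype α] [Fintype β] (p : α ⊕ β → Prop) [DecidablePred p]
    [DecidablePred fun a => p (Sum.inl a)] [DecidablePred fun b => p (Sum.inr b)] :
    (Finset.univ.filter p).card = (Finset.univ.filter fun a => p (Sum.inl a)).card +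
      (Finset.univ.filter fun b => p (Sum.inr b)).card := by
  rw [Finset.card_filter, Finset.card_filter, Finset.card_filter, Fintype.sum_sum_type]
  refine congrArg₂ (· + ·) ?_ ?_
  · refine Finset.sum_congr rfl fun a _ => ?_
    by_cases h : p (Sum.inl a)
    · rw [if_pos h, if_pos h]
    · rw [if_neg h, if_neg h]
  · refine Finset.sum_congr rfl fun a _ => ?_
    by_cases h : p (Sum.inr a)
    · rw [if_pos h, if_pos h]
    · rw [if_neg h, if_neg h]

theorem LB_slot {I : Type} [Fintype I] (T : Tr I) (U : Finset I) :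
    (Finset.univ.filter fun r : T.R => r.1 ∈ U).card = ∑ i ∈ U, T.ro i := by
  rw [Finset.card_filter, Fintype.sum_sigma]
  have h : ∀ i : I, (∑ _j : Fin (T.ro i), (if i ∈ U then 1 else 0)) = if i ∈ U then T.ro i else 0 := by
    intro i
    by_cases hi : i ∈ U
    · simp [hi]
    · simp [hi]
  refine (Finset.sum_congr rfl fun i _ => h i).trans ?_
  rw [Finset.sum_ite_mem, Finset.univ_inter]

/-- edges not touching `W` -/
theorem LB_nt {I : Type} [Fintype I] (T : Tr I) (W : Finset I) :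
    (Finset.univ.filter fun e : T.Ed => ¬ T.tc W e).card = T.ew Wᶜ := by
  refine (LB_sum (fun e : T.Ed => ¬ T.tc W e)).trans ?_
  unfold Tr.ew
  have h1 : (Finset.univ.filter fun b : T.R => ¬ T.tc W (Sum.inr b)).card = ∑ i ∈ Wᶜ, T.ro i := by
    rw [← LB_slot]
    congr 1
    ext r
    simp [Tr.tc]
  have h2 : (Finset.univ.filter fun a : {e : I × I // T.par e.1 = some e.2} => ¬ T.tc W (Sum.inl a)).card =
      (Finset.univ.filter fun e : I × I => T.par e.1 = some e.2 ∧ e.1 ∈ Wᶜ ∧ e.2 ∈ Wᶜ).card := by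
    refine Finset.card_bij (fun a _ => a.1) ?_ ?_ ?_
    · intro a ha
      simp only [Finset.mem_filter, Finset.mem_univ, true_and, Tr.tc, not_or, Finset.mem_compl] at ha ⊢
      exact ⟨a.2, ha⟩
    · intro a _ b _ h
      exact Subtype.ext h
    · intro e he
      simp only [Finset.mem_filter, Finset.mem_univ, true_and, Finset.mem_compl] at he
      refine ⟨⟨e, he.1⟩, ?_, rfl⟩
      simp only [Finset.mem_filter, Finset.mem_univ, true_and, Tr.tc, not_or]
      exact he.2
  rw [h1, h2, add_comm]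

theorem LB_core {I : Type} [Fintype I] (T : Tr I) (hub : I → Bool) (ρ : ℚ)
    (hU : ∀ U : Finset I, (T.ew U : ℚ) ≤ ρ * U.card) (hE : (T.ew Finset.univ : ℚ) = ρ * Fintype.card I)
    (hN1 : Fintype.card T.Ed = T.ew Finset.univ) (S : Finset (Fin (Fintype.card (I ⊕ T.Ed)))) :
    (2 * Fintype.card T.Ed + Fintype.card I) * S.card ≤ (Fintype.card I + Fintype.card T.Ed) *
      (Finset.univ.filter fun k : (T.Ed ⊕ T.Ed) ⊕ I =>
      ∃ x : I ⊕ T.Ed, Fintype.equivFin (I ⊕ T.Ed) x ∈ S ∧
        ((lsEd T hub k).1 = Sum.inr x ∨ (lsEd T hub k).2 = Sum.inr x)).card := by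
  set SI : Finset I := Finset.univ.filter fun i => Fintype.equivFin (I ⊕ T.Ed) (Sum.inl i) ∈ S with hSI
  set SE : Finset T.Ed := Finset.univ.filter fun e => Fintype.equivFin (I ⊕ T.Ed) (Sum.inr e) ∈ S with hSE
  have hS : S.card = SI.card + SE.card := by
    rw [hSI, hSE]
    refine Eq.trans ?_ (LB_sum (fun x : I ⊕ T.Ed => Fintype.equivFin (I ⊕ T.Ed) x ∈ S))
    symm
    refine Finset.card_bij (fun x _ => Fintype.equivFin (I ⊕ T.Ed) x) ?_ ?_ ?_
    · intro x hx
      simpa using hx
    · intro a _ b _ h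
      exact (Fintype.equivFin (I ⊕ T.Ed)).injective h
    · intro b hb
      refine ⟨(Fintype.equivFin (I ⊕ T.Ed)).symm b, ?_, ?_⟩
      · simp only [Finset.mem_filter, Finset.mem_univ, true_and]
        rw [Equiv.apply_symm_apply]; exact hb
      · exact Equiv.apply_symm_apply _ _
  have hes : (Finset.univ.filter fun k : (T.Ed ⊕ T.Ed) ⊕ I =>
      ∃ x : I ⊕ T.Ed, Fintype.equivFin (I ⊕ T.Ed) x ∈ S ∧
        ((lsEd T hub k).1 = Sum.inr x ∨ (lsEd T hub k).2 = Sum.inr x)).card = ((Finset.univ.filter fun e : T.Ed =>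
      ∃ x : I ⊕ T.Ed, Fintype.equivFin (I ⊕ T.Ed) x ∈ S ∧
        ((lsEd T hub (.inl (.inl e))).1 = Sum.inr x ∨ (lsEd T hub (.inl (.inl e))).2 = Sum.inr x)).card +
      (Finset.univ.filter fun e : T.Ed =>
      ∃ x : I ⊕ T.Ed, Fintype.equivFin (I ⊕ T.Ed) x ∈ S ∧
        ((lsEd T hub (.inl (.inr e))).1 = Sum.inr x ∨ (lsEd T hub (.inl (.inr e))).2 = Sum.inr x)).card) +
      (Finset.univ.filter fun i : I =>
      ∃ x : I ⊕ T.Ed, Fintype.equivFin (I ⊕ T.Ed) x ∈ S ∧
        ((lsEd T hub (.inr i)).1 = Sum.inr x ∨ (lsEd T hub (.inr i)).2 = Sum.inr x)).card := by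
    rw [LB_sum, LB_sum (fun k : T.Ed ⊕ T.Ed => ∃ x : I ⊕ T.Ed, Fintype.equivFin (I ⊕ T.Ed) x ∈ S ∧
        ((lsEd T hub (Sum.inl k)).1 = Sum.inr x ∨ (lsEd T hub (Sum.inl k)).2 = Sum.inr x))]
  have h3 : SI.card ≤ (Finset.univ.filter fun i : I =>
      ∃ x : I ⊕ T.Ed, Fintype.equivFin (I ⊕ T.Ed) x ∈ S ∧
        ((lsEd T hub (.inr i)).1 = Sum.inr x ∨ (lsEd T hub (.inr i)).2 = Sum.inr x)).card := by
    apply Finset.card_le_card
    intro i hi
    simp only [hSI, Finset.mem_filter, Finset.mem_univ, true_and] at hi ⊢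
    exact ⟨.inl i, hi, Or.inr rfl⟩
  have h12 : 2 * SE.card + (Finset.univ.filter fun e : T.Ed => T.tc SI e).card ≤
      ((Finset.univ.filter fun e : T.Ed =>
      ∃ x : I ⊕ T.Ed, Fintype.equivFin (I ⊕ T.Ed) x ∈ S ∧
        ((lsEd T hub (.inl (.inl e))).1 = Sum.inr x ∨ (lsEd T hub (.inl (.inl e))).2 = Sum.inr x)).card +
      (Finset.univ.filter fun e : T.Ed =>
      ∃ x : I ⊕ T.Ed, Fintype.equivFin (I ⊕ T.Ed) x ∈ S ∧
        ((lsEd T hub (.inl (.inr e))).1 = Sum.inr x ∨ (lsEd T hub (.inl (.inr e))).2 = Sum.inr x)).card) +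
      (Finset.univ.filter fun e : T.Ed => e ∈ SE ∧ T.tc SI e).card := by
    have hSE' : SE.card = (Finset.univ.filter fun e : T.Ed => e ∈ SE).card := by
      congr 1; ext e; simp
    rw [hSE', Finset.card_filter, Finset.card_filter, Finset.card_filter, Finset.card_filter,
      Finset.card_filter, Finset.mul_sum, ← Finset.sum_add_distrib, ← Finset.sum_add_distrib,
      ← Finset.sum_add_distrib]
    apply Finset.sum_le_sum
    intro e _
    by_cases he : e ∈ SE
    · have heS : Fintype.equivFin (I ⊕ T.Ed) (Sum.inr e) ∈ S := by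
        simpa [hSE] using he
      have hp1 : ∃ x : I ⊕ T.Ed, Fintype.equivFin (I ⊕ T.Ed) x ∈ S ∧
        ((lsEd T hub (.inl (.inl e))).1 = Sum.inr x ∨ (lsEd T hub (.inl (.inl e))).2 = Sum.inr x) := by
        refine ⟨.inr e, heS, Or.inr ?_⟩
        rcases e with e | r <;> rfl
      have hp2 : ∃ x : I ⊕ T.Ed, Fintype.equivFin (I ⊕ T.Ed) x ∈ S ∧
        ((lsEd T hub (.inl (.inr e))).1 = Sum.inr x ∨ (lsEd T hub (.inl (.inr e))).2 = Sum.inr x) := by
        refine ⟨.inr e, heS, Or.inr ?_⟩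
        rcases e with e | r <;> rfl
      rw [if_pos hp1, if_pos hp2, if_pos he]
      by_cases ht : T.tc SI e
      · rw [if_pos ht, if_pos ⟨he, ht⟩]
        norm_num
      · rw [if_neg ht]; omega
    · rw [if_neg he]
      by_cases ht : T.tc SI e
      · rw [if_pos ht]
        have hp : (∃ x : I ⊕ T.Ed, Fintype.equivFin (I ⊕ T.Ed) x ∈ S ∧
          ((lsEd T hub (.inl (.inl e))).1 = Sum.inr x ∨ (lsEd T hub (.inl (.inl e))).2 = Sum.inr x)) ∨
          (∃ x : I ⊕ T.Ed, Fintype.equivFin (I ⊕ T.Ed) x ∈ S ∧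
          ((lsEd T hub (.inl (.inr e))).1 = Sum.inr x ∨ (lsEd T hub (.inl (.inr e))).2 = Sum.inr x)) := by
          rcases e with e | r
          · simp only [Tr.tc] at ht
            rcases ht with ht | ht
            · left
              exact ⟨.inl e.1.1, by simpa [hSI] using ht, Or.inl rfl⟩
            · right
              exact ⟨.inl e.1.2, by simpa [hSI] using ht, Or.inl rfl⟩
          · left
            simp only [Tr.tc] at ht
            exact ⟨.inl r.1, by simpa [hSI] using ht, Or.inl rfl⟩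
        rcases hp with hp | hp
        · rw [if_pos hp]; omega
        · rw [if_pos hp]; omega
      · rw [if_neg ht]; omega
  have hk1 : (Finset.univ.filter fun e : T.Ed => e ∈ SE ∧ T.tc SI e).card ≤ SE.card := by
    apply Finset.card_le_card
    intro e he
    exact (Finset.mem_filter.1 he).2.1
  have hk2 : (Finset.univ.filter fun e : T.Ed => e ∈ SE ∧ T.tc SI e).card ≤
      (Finset.univ.filter fun e : T.Ed => T.tc SI e).card := by
    apply Finset.card_le_card
    intro e he
    simp only [Finset.mem_filter, Finset.mem_univ, true_and] at he ⊢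
    exact he.2
  have ht : (Finset.univ.filter fun e : T.Ed => T.tc SI e).card + T.ew SIᶜ = Fintype.card T.Ed := by
    rw [← LB_nt]
    rw [Finset.card_filter_add_card_filter_not]
    rfl
  have hc := Finset.card_add_card_compl SI
  have hU' := hU SIᶜ
  set t := (Finset.univ.filter fun e : T.Ed => T.tc SI e).card
  set k1 := (Finset.univ.filter fun e : T.Ed => e ∈ SE ∧ T.tc SI e).card
  have htq : ρ * (SI.card : ℚ) ≤ (t : ℚ) := by
    have h1 : (t : ℚ) + (T.ew SIᶜ : ℚ) = (Fintype.card T.Ed : ℚ) := by exact_mod_cast ht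
    have h2 : (SI.card : ℚ) + ((SIᶜ).card : ℚ) = (Fintype.card I : ℚ) := by exact_mod_cast hc
    rw [hN1, hE] at h1
    have h3 : ρ * ((SI.card : ℚ) + ((SIᶜ).card : ℚ)) = ρ * (Fintype.card I : ℚ) := by rw [h2]
    nlinarith
  have hm : (Fintype.card T.Ed : ℚ) = ρ * (Fintype.card I : ℚ) := by rw [hN1, hE]
  have hmt : Fintype.card T.Ed * SI.card ≤ Fintype.card I * t := by
    have : (Fintype.card T.Ed : ℚ) * (SI.card : ℚ) ≤ (Fintype.card I : ℚ) * (t : ℚ) := by
      rw [hm]
      have := mul_le_mul_of_nonneg_left htq (Nat.cast_nonneg (α := ℚ) (Fintype.card I))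
      linarith [this, mul_comm ρ (Fintype.card I : ℚ)]
    exact_mod_cast this
  rw [hes, hS]
  set n := Fintype.card I
  set m := Fintype.card T.Ed
  obtain ⟨u, hu⟩ := Nat.exists_eq_add_of_le hk1
  obtain ⟨w, hw⟩ := Nat.exists_eq_add_of_le hk2
  have hes3 := add_le_add h12 h3
  refine le_trans ?_ (Nat.mul_le_mul_left (n + m) (show SI.card + k1 + 2 * u + w + k1 ≤ _ by omega))
  rw [hw] at hmt
  rw [hu]
  nlinarith [Nat.zero_le (m * w), Nat.zero_le (n * u), Nat.zero_le (m * u), Nat.zero_le (n * w)]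

theorem LB (hLN : LN_stmt) : LB_stmt2 := by
  intro I _ T hub ρ hρ hU hE S
  obtain ⟨hN1, hN2, hN3⟩ := hLN I T hub
  have h := LB_core T hub ρ hU hE hN1 S
  have hes := LB_es (lsEd T hub) (lsEd_inj T hub) (lsEd_ll T hub) S
  change (LS T hub).es S = _ at hes
  have h2 : (2 * Fintype.card T.Ed + Fintype.card I) * S.card ≤
      (Fintype.card I + Fintype.card T.Ed) * (LS T hub).es S := by
    refine le_trans h (le_of_eq ?_)
    refine congrArg (fun x => (Fintype.card I + Fintype.card T.Ed) * x) (Eq.trans ?_ hes.symm)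
    refine congrArg Finset.card (Finset.ext fun k => ?_)
    simp only [Finset.mem_filter, Finset.mem_univ, true_and]
  rw [hN3]
  exact le_trans h2 (le_of_eq (congrArg (fun x => x * (LS T hub).es S) hN2.symm))

end

end Pool.Agent.helper50.IV
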